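import Mathlib
import Pool.Agent.N753.DR.Stm2
import Pool.Agent.N394.CV.TypB
import Pool.Agent.N340.DR.Comb
import Pool.Agent.N530.DR.Large
import Pool.Agent.N262.DR.Box
import Pool.Agent.N328.CV.CoreV

/-!
# CV/SMALLB, part 1: primes above a rational prime, the ideals of the conditions
-/

set_option autoImplicit false

namespace Pool.Agent.L5helper17.DR

open NumberField IsDedekindDomain Module Pool.Agent.N753.DR Pool.Agent.N147.DR

section primes

variable {F : Type} [Field F] [NumberField F]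

theorem prime_aux (v : HeightOneSpectrum (𝓞 F)) : ∀ n : ℕ, n ≠ 0 → (n : 𝓞 F) ∈ v.asIdeal →
    ∃ p : ℕ, p.Prime ∧ (p : 𝓞 F) ∈ v.asIdeal ∧ p ∣ n := by
  intro n
  induction n using Nat.strong_induction_on with
  | _ n ih =>
    intro hn hv
    by_cases h1 : n = 1
    · exfalso
      rw [h1, Nat.cast_one] at hv
      exact v.isPrime.ne_top ((Ideal.eq_top_iff_one _).2 hv)
    · have hp := Nat.minFac_prime h1
      obtain ⟨m, hm⟩ := Nat.minFac_dvd n
      have h2 : ((n.minFac : ℕ) : 𝓞 F) * (m : 𝓞 F) ∈ v.asIdeal := by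
        rw [← Nat.cast_mul, ← hm]; exact hv
      rcases v.isPrime.mem_or_mem h2 with h3 | h3
      · exact ⟨_, hp, h3, Nat.minFac_dvd n⟩
      · have hm0 : m ≠ 0 := by rintro rfl; rw [mul_zero] at hm; exact hn hm
        have hlt : m < n := by
          have := hp.two_le
          have := Nat.pos_of_ne_zero hm0
          rw [hm]
          nlinarith
        obtain ⟨p, hp1, hp2, hp3⟩ := ih m hlt hm0 h3
        exact ⟨p, hp1, hp2, hp3.trans ⟨n.minFac, by rw [mul_comm]; exact hm⟩⟩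

theorem exists_prime (v : HeightOneSpectrum (𝓞 F)) : ∃ p : ℕ, p.Prime ∧ (p : 𝓞 F) ∈ v.asIdeal ∧
    p ≤ Ideal.absNorm v.asIdeal := by
  have h0 : Ideal.absNorm v.asIdeal ≠ 0 := by
    have := two_le_norm v
    omega
  obtain ⟨p, h1, h2, h3⟩ := prime_aux v _ h0 (Ideal.absNorm_mem _)
  exact ⟨p, h1, h2, Nat.le_of_dvd (Nat.pos_of_ne_zero h0) h3⟩

theorem prime_unique {v : HeightOneSpectrum (𝓞 F)} {p q : ℕ} (hp : p.Prime) (hq : q.Prime)
    (h1 : (p : 𝓞 F) ∈ v.asIdeal) (h2 : (q : 𝓞 F) ∈ v.asIdeal) : p = q := by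
  by_contra hne
  have h3 : Nat.Coprime p q := (Nat.coprime_primes hp hq).2 hne
  have h4 := Nat.Coprime.isCoprime h3
  obtain ⟨a, b, hab⟩ := h4
  have h5 : (a : 𝓞 F) * (p : 𝓞 F) + (b : 𝓞 F) * (q : 𝓞 F) = 1 := by
    exact_mod_cast congrArg (Int.cast : ℤ → 𝓞 F) hab
  apply v.isPrime.ne_top
  rw [Ideal.eq_top_iff_one, ← h5]
  exact v.asIdeal.add_mem (v.asIdeal.mul_mem_left _ h1) (v.asIdeal.mul_mem_left _ h2)

theorem prime_le_norm {v : HeightOneSpectrum (𝓞 F)} {p : ℕ} (hp : p.Prime)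
    (h1 : (p : 𝓞 F) ∈ v.asIdeal) : p ≤ Ideal.absNorm v.asIdeal := by
  obtain ⟨q, h2, h3, h4⟩ := exists_prime v
  rw [prime_unique hp h2 h1 h3]
  exact h4

theorem above_prod {p : ℕ} (hp : p.Prime) (T : Finset (HeightOneSpectrum (𝓞 F)))
    (hT : ∀ v ∈ T, (p : 𝓞 F) ∈ v.asIdeal) :
    ∏ v ∈ T, Ideal.absNorm v.asIdeal ≤ p ^ finrank ℚ F := by
  classical
  have h1 : ∏ v ∈ T, v.asIdeal ∣ Ideal.span {(p : 𝓞 F)} := by
    refine Finset.prod_dvd_of_coprime ?_ ?_
    · intro v _ w _ hvw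
      have := v.isMaximal
      have := w.isMaximal
      exact Ideal.isCoprime_of_isMaximal fun h => hvw (HeightOneSpectrum.ext h)
    · intro v hv
      rw [Ideal.dvd_span_singleton]
      exact hT v hv
  have h2 := map_dvd (Ideal.absNorm (S := 𝓞 F)) h1
  rw [map_prod] at h2
  have h3 : Ideal.absNorm (Ideal.span {(p : 𝓞 F)}) = p ^ finrank ℚ F := by
    rw [Ideal.absNorm_span_singleton]
    have h4 : (p : 𝓞 F) = algebraMap ℤ (𝓞 F) (p : ℤ) := by simp
    rw [h4, Algebra.norm_algebraMap_of_basis (RingOfIntegers.basis F)]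
    rw [Int.natAbs_pow, Int.natAbs_natCast]
    congr 1
    rw [← RingOfIntegers.rank F]
    exact (Module.finrank_eq_card_chooseBasisIndex ℤ (𝓞 F)).symm
  rw [h3] at h2
  exact Nat.le_of_dvd (pow_pos hp.pos _) h2

theorem above_card {p : ℕ} (hp : p.Prime) (T : Finset (HeightOneSpectrum (𝓞 F)))
    (hT : ∀ v ∈ T, (p : 𝓞 F) ∈ v.asIdeal) : T.card ≤ finrank ℚ F := by
  have h1 := above_prod hp T hT
  have h2 : p ^ T.card ≤ ∏ v ∈ T, Ideal.absNorm v.asIdeal := by
    rw [← Finset.prod_const]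
    exact Finset.prod_le_prod' fun v hv => prime_le_norm hp (hT v hv)
  exact (Nat.pow_le_pow_iff_right hp.one_lt).1 (h2.trans h1)

theorem above_finite {p : ℕ} (hp : p.Prime) :
    {v : HeightOneSpectrum (𝓞 F) | (p : 𝓞 F) ∈ v.asIdeal}.Finite := by
  have h0 : (Ideal.span {(p : 𝓞 F)}) ≠ ⊥ := by
    rw [Ne, Ideal.span_singleton_eq_bot]
    exact_mod_cast hp.ne_zero
  refine (Ideal.finite_factors h0).subset fun v hv => ?_
  show v.asIdeal ∣ Ideal.span {(p : 𝓞 F)}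
  rw [Ideal.dvd_span_singleton]
  exact hv

theorem above_ncard {p : ℕ} (hp : p.Prime) :
    {v : HeightOneSpectrum (𝓞 F) | (p : 𝓞 F) ∈ v.asIdeal}.ncard ≤ finrank ℚ F := by
  rw [Set.ncard_eq_toFinset_card _ (above_finite hp)]
  exact above_card hp _ fun v hv => by simpa using hv

end primes

section conds

variable {K L : Type} [Field K] [NumberField K] [Field L] [NumberField L] [Algebra K L]

/-- the ideals of the conditions at `p` with the exponent `b` -/
def Tset (L : Type) [Field L] [NumberField L] [Algebra K L]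
    (Bad : Finset (HeightOneSpectrum (𝓞 K))) (p b : ℕ) : Set (Ideal (𝓞 L)) :=
  {I | ∃ v ∉ Bad, (p : 𝓞 K) ∈ v.asIdeal ∧ ((b = 2 ∧ IsTyp v I) ∨
    ∃ w : HeightOneSpectrum (𝓞 L), w.asIdeal.LiesOver v.asIdeal ∧ I = w.asIdeal ^ b)}

theorem mem_above {v : HeightOneSpectrum (𝓞 K)} {w : HeightOneSpectrum (𝓞 L)}
    (hw : w.asIdeal.LiesOver v.asIdeal) {p : ℕ} (h : (p : 𝓞 K) ∈ v.asIdeal) :
    (p : 𝓞 L) ∈ w.asIdeal := by
  have := (under_mem hw (p : 𝓞 K)).2 h
  rwa [map_natCast] at this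

theorem Tset_mem {Bad : Finset (HeightOneSpectrum (𝓞 K))} {p b : ℕ} {I : Ideal (𝓞 L)}
    (hI : I ∈ Tset (K := K) L Bad p b) : ((p : 𝓞 L)) ^ b ∈ I := by
  obtain ⟨v, _, hpv, ⟨rfl, w, hw, rfl | ⟨w', hw', _, rfl⟩ | ⟨rfl, _⟩⟩ | ⟨w, hw, rfl⟩⟩ := hI
  · exact Ideal.pow_mem_pow (mem_above hw hpv) 2
  · rw [sq]
    exact Ideal.mul_mem_mul (mem_above hw hpv) (mem_above hw' hpv)
  · exact Ideal.pow_mem_of_mem _ (mem_above hw hpv) 2 (by norm_num)
  · exact Ideal.pow_mem_pow (mem_above hw hpv) b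

theorem Tset_card (Bad : Finset (HeightOneSpectrum (𝓞 K))) {p : ℕ} (hp : p.Prime) (b : ℕ) :
    (Tset (K := K) L Bad p b).Finite ∧ (Tset (K := K) L Bad p b).ncard ≤
      finrank ℚ K * (2 * finrank K L ^ 2) + finrank ℚ L := by
  classical
  have hV := above_finite (F := K) hp
  have hW := above_finite (F := L) hp
  set V := hV.toFinset with hVdef
  set W := hW.toFinset with hWdef
  have hsub : Tset (K := K) L Bad p b ⊆ (⋃ v ∈ V, {I : Ideal (𝓞 L) | IsTyp v I}) ∪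
      ((fun w : HeightOneSpectrum (𝓞 L) => w.asIdeal ^ b) '' (W : Set _)) := by
    rintro I ⟨v, _, hpv, ⟨_, hI⟩ | ⟨w, hw, rfl⟩⟩
    · left
      rw [Set.mem_iUnion₂]
      exact ⟨v, by rw [hVdef, Set.Finite.mem_toFinset]; exact hpv, hI⟩
    · right
      exact ⟨w, by rw [hWdef, Set.Finite.coe_toFinset]; exact mem_above hw hpv, rfl⟩
  have hfin : ((⋃ v ∈ V, {I : Ideal (𝓞 L) | IsTyp v I}) ∪
      ((fun w : HeightOneSpectrum (𝓞 L) => w.asIdeal ^ b) '' (W : Set _))).Finite := by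
    refine Set.Finite.union ?_ ((Finset.finite_toSet W).image _)
    exact Set.Finite.biUnion (Finset.finite_toSet V) fun v _ => (typ_fin v).1
  refine ⟨hfin.subset hsub, (Set.ncard_le_ncard hsub hfin).trans ?_⟩
  refine (Set.ncard_union_le _ _).trans (Nat.add_le_add ?_ ?_)
  · refine (Pool.Agent.N530.DR.ncard_biUnion_le' V _).trans ?_
    refine (Finset.sum_le_card_nsmul _ _ _ fun v _ => (typ_fin v).2).trans ?_
    rw [smul_eq_mul]
    refine Nat.mul_le_mul_right _ (above_card hp V fun v hv => ?_)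
    rw [hVdef, Set.Finite.mem_toFinset] at hv
    exact hv
  · refine (Set.ncard_image_le (Finset.finite_toSet W)).trans ?_
    rw [Set.ncard_coe_finset]
    refine above_card hp W fun v hv => ?_
    rw [hWdef, Set.Finite.mem_toFinset] at hv
    exact hv

end conds

end Pool.Agent.L5helper17.DR
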