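import Mathlib
import Pool.Agent.L5helper17.DR.SmallB1

/-!
# CV/SMALLB, part 2: counting for a fixed modulus
-/

set_option autoImplicit false

namespace Pool.Agent.L5helper17.DR

open NumberField IsDedekindDomain Module Pool.Agent.N753.DR Pool.Agent.N147.DR

section count

variable {K L : Type} [Field K] [NumberField K] [Field L] [NumberField L] [Algebra K L]

/-- the translates -/
noncomputable def tr (K : Type) [Field K] [NumberField K] {m : ℕ} (i0 i1 : Fin m) (z : ℕ × ℕ) :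
    Fin m → 𝓞 K :=
  Pi.single i0 (z.1 : 𝓞 K) + Pi.single i1 (z.2 : 𝓞 K)

theorem evB_tr {m : ℕ} (β : Fin m → 𝓞 L) (i0 i1 : Fin m) (z : ℕ × ℕ) :
    evB K β (tr K i0 i1 z) = (z.1 : 𝓞 L) * β i0 + (z.2 : 𝓞 L) * β i1 := by
  rw [tr, map_add, Pool.Agent.N394.CV.evB_single, Pool.Agent.N394.CV.evB_single, map_natCast,
    map_natCast]

open scoped Classical in
/-- the values modulo one ideal -/
theorem one_ideal {Bad : Finset (HeightOneSpectrum (𝓞 K))} {m : ℕ} {β : Fin m → 𝓞 L}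
    {i0 i1 : Fin m}
    (h1 : ∀ v ∉ Bad, ∀ w : HeightOneSpectrum (𝓞 L), w.asIdeal.LiesOver v.asIdeal →
      β i0 ∉ w.asIdeal)
    (h2 : ∀ v ∉ Bad, ∀ w : HeightOneSpectrum (𝓞 L), w.asIdeal.LiesOver v.asIdeal →
      ∀ (e : ℕ) (c : 𝓞 K), algebraMap (𝓞 K) (𝓞 L) c ∈ w.asIdeal ^ e → c ∈ v.asIdeal ^ e)
    (h3 : ∀ v ∉ Bad, ∀ p : ℕ, p.Prime → (p : 𝓞 K) ∈ v.asIdeal → ∀ (e : ℕ) (m : ℤ),
      (m : 𝓞 K) ∈ v.asIdeal ^ e → (p : ℤ) ^ e ∣ m)
    (h4 : ∀ v ∉ Bad, ∀ w : HeightOneSpectrum (𝓞 L), w.asIdeal.LiesOver v.asIdeal →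
      ∀ c0 c1 : 𝓞 K,
      algebraMap (𝓞 K) (𝓞 L) c0 * β i0 + algebraMap (𝓞 K) (𝓞 L) c1 * β i1 ∈ w.asIdeal →
      (Ideal.absNorm v.asIdeal < Ideal.absNorm w.asIdeal ∨
        ∃ w' : HeightOneSpectrum (𝓞 L), w'.asIdeal.LiesOver v.asIdeal ∧ w' ≠ w ∧
          algebraMap (𝓞 K) (𝓞 L) c0 * β i0 + algebraMap (𝓞 K) (𝓞 L) c1 * β i1 ∈ w'.asIdeal) →
      c0 ∈ v.asIdeal ∧ c1 ∈ v.asIdeal)
    {p : ℕ} (hp : p.Prime) (b : ℕ) {I : Ideal (𝓞 L)} (hI : I ∈ Tset (K := K) L Bad p b)
    (u : 𝓞 L) :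
    ((Finset.range (p ^ b) ×ˢ Finset.range (p ^ b)).filter fun z : ℕ × ℕ =>
      u + ((z.1 : 𝓞 L) * β i0 + (z.2 : 𝓞 L) * β i1) ∈ I).card ≤ p ^ b := by
  have hpp := hp.pos
  have keyPow : ∀ v ∉ Bad, (p : 𝓞 K) ∈ v.asIdeal → ∀ w : HeightOneSpectrum (𝓞 L),
      w.asIdeal.LiesOver v.asIdeal → I = w.asIdeal ^ b →
      ((Finset.range (p ^ b) ×ˢ Finset.range (p ^ b)).filter fun z : ℕ × ℕ =>
        u + ((z.1 : 𝓞 L) * β i0 + (z.2 : 𝓞 L) * β i1) ∈ I).card ≤ p ^ b := by
    intro v hv hpv w hw hIw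
    calc _ ≤ (Finset.range (p ^ b)).card := by
          refine Finset.card_le_card_of_injOn Prod.snd ?_ ?_
          · intro z hz
            rw [Finset.mem_coe, Finset.mem_filter, Finset.mem_product] at hz
            exact hz.1.2
          · rintro ⟨x, y⟩ hz ⟨x', y'⟩ hz' h
            rw [Finset.mem_coe, Finset.mem_filter, Finset.mem_product, Finset.mem_range,
              Finset.mem_range] at hz hz'
            simp only at h
            subst h
            have h5 := I.sub_mem hz.2 hz'.2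
            have h6 : u + ((x : 𝓞 L) * β i0 + (y : 𝓞 L) * β i1) -
                (u + ((x' : 𝓞 L) * β i0 + (y : 𝓞 L) * β i1)) =
                β i0 * algebraMap (𝓞 K) (𝓞 L) (((x : ℤ) - (x' : ℤ) : ℤ) : 𝓞 K) := by
              push_cast
              ring
            simp only at h5
            rw [h6, hIw] at h5
            have hpr := w.isPrime
            rcases Ideal.IsPrime.mul_mem_pow w.asIdeal h5 with h7 | h7
            · exact absurd h7 (h1 v hv w hw)
            · have h8 := h3 v hv p hp hpv b _ (h2 v hv w hw b _ h7)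
              have h9 : (x' : ℕ) ≡ x [MOD p ^ b] := by
                rw [Nat.modEq_iff_dvd]
                exact_mod_cast h8
              have h10 := h9.eq_of_lt_of_lt hz'.1.1 hz.1.1
              rw [h10]
      _ = p ^ b := Finset.card_range _
  have keyInd : b = 2 → ∀ v ∉ Bad, (p : 𝓞 K) ∈ v.asIdeal → ∀ w : HeightOneSpectrum (𝓞 L),
      w.asIdeal.LiesOver v.asIdeal → I ≤ w.asIdeal → (Ideal.absNorm v.asIdeal <
        Ideal.absNorm w.asIdeal ∨ ∃ w' : HeightOneSpectrum (𝓞 L),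
          w'.asIdeal.LiesOver v.asIdeal ∧ w' ≠ w ∧ I ≤ w'.asIdeal) →
      ((Finset.range (p ^ b) ×ˢ Finset.range (p ^ b)).filter fun z : ℕ × ℕ =>
        u + ((z.1 : 𝓞 L) * β i0 + (z.2 : 𝓞 L) * β i1) ∈ I).card ≤ p ^ b := by
    intro hb v hv hpv w hw hIw hor
    subst hb
    calc _ ≤ (Finset.range p ×ˢ Finset.range p).card := by
          refine Finset.card_le_card_of_injOn (fun z => (z.1 / p, z.2 / p)) ?_ ?_
          · intro z hz
            rw [Finset.mem_coe, Finset.mem_filter, Finset.mem_product, Finset.mem_range,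
              Finset.mem_range] at hz
            rw [Finset.mem_coe, Finset.mem_product, Finset.mem_range, Finset.mem_range]
            exact ⟨Nat.div_lt_of_lt_mul (by rw [← sq]; exact hz.1.1),
              Nat.div_lt_of_lt_mul (by rw [← sq]; exact hz.1.2)⟩
          · rintro ⟨x, y⟩ hz ⟨x', y'⟩ hz' h
            rw [Finset.mem_coe, Finset.mem_filter] at hz hz'
            have h5 := I.sub_mem hz.2 hz'.2
            have h6 : u + ((x : 𝓞 L) * β i0 + (y : 𝓞 L) * β i1) -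
                (u + ((x' : 𝓞 L) * β i0 + (y' : 𝓞 L) * β i1)) =
                algebraMap (𝓞 K) (𝓞 L) (((x : ℤ) - (x' : ℤ) : ℤ) : 𝓞 K) * β i0 +
                algebraMap (𝓞 K) (𝓞 L) (((y : ℤ) - (y' : ℤ) : ℤ) : 𝓞 K) * β i1 := by
              push_cast
              ring
            simp only at h5
            rw [h6] at h5
            have h7 := h4 v hv w hw _ _ (hIw h5) (by
              rcases hor with h | ⟨w', hw', hne, hIw'⟩
              · exact Or.inl h
              · exact Or.inr ⟨w', hw', hne, hIw' h5⟩)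
            have hmod : ∀ a a' : ℕ, (((a : ℤ) - (a' : ℤ) : ℤ) : 𝓞 K) ∈ v.asIdeal →
                a / p = a' / p → a = a' := by
              intro a a' ha haa
              have h8 := h3 v hv p hp hpv 1 _ (by rw [pow_one]; exact ha)
              rw [pow_one] at h8
              have h9 : a' % p = a % p := by
                have : a' ≡ a [MOD p] := by
                  rw [Nat.modEq_iff_dvd]
                  exact_mod_cast h8
                exact this
              rw [← Nat.div_add_mod a p, ← Nat.div_add_mod a' p, haa, h9]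
            rw [Prod.mk.injEq] at h
            rw [hmod x x' h7.1 h.1, hmod y y' h7.2 h.2]
      _ = p ^ 2 := by rw [Finset.card_product, Finset.card_range, sq]
  obtain ⟨v, hv, hpv, ⟨hb, w, hw, hI' | ⟨w', hw', hne, hI'⟩ | ⟨hI', hlt⟩⟩ | ⟨w, hw, hI'⟩⟩ := hI
  · exact keyPow v hv hpv w hw (by rw [hI', hb])
  · refine keyInd hb v hv hpv w hw (by rw [hI']; exact Ideal.mul_le_left) (Or.inr ⟨w', hw', hne, ?_⟩)
    rw [hI']; exact Ideal.mul_le_right
  · exact keyInd hb v hv hpv w hw (by rw [hI']) (Or.inl hlt)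
  · exact keyPow v hv hpv w hw hI'

theorem sz_tr {m : ℕ} (i0 i1 : Fin m) {B : ℕ} {z : ℕ × ℕ} (h0 : z.1 ≤ B) (h1 : z.2 ≤ B)
    (j : Fin m) : sz (tr K i0 i1 z j) ≤ 2 * B * sz (1 : 𝓞 K) := by
  have haux : ∀ (i : Fin m) (n : ℕ), n ≤ B →
      sz ((Pi.single i (n : 𝓞 K) : Fin m → 𝓞 K) j) ≤ B * sz (1 : 𝓞 K) := by
    intro i n hn
    by_cases h : j = i
    · subst h
      rw [Pi.single_eq_same]
      exact (Pool.Agent.N262.DR.sz_nat n).trans (Nat.mul_le_mul_right _ hn)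
    · rw [Pi.single_eq_of_ne h, Pool.Agent.N328.CV.sz_zero']
      exact Nat.zero_le _
  rw [tr, Pi.add_apply]
  refine (Pool.Agent.N328.CV.sz_add _ _).trans ?_
  have e1 := haux i0 z.1 h0
  have e2 := haux i1 z.2 h1
  calc _ ≤ B * sz (1 : 𝓞 K) + B * sz (1 : 𝓞 K) := Nat.add_le_add e1 e2
    _ = _ := by ring

/-- the counting for a fixed modulus -/
theorem fixed_q {Bad : Finset (HeightOneSpectrum (𝓞 K))} {m : ℕ} {β : Fin m → 𝓞 L}
    {i0 i1 : Fin m}
    (h1 : ∀ v ∉ Bad, ∀ w : HeightOneSpectrum (𝓞 L), w.asIdeal.LiesOver v.asIdeal →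
      β i0 ∉ w.asIdeal)
    (h2 : ∀ v ∉ Bad, ∀ w : HeightOneSpectrum (𝓞 L), w.asIdeal.LiesOver v.asIdeal →
      ∀ (e : ℕ) (c : 𝓞 K), algebraMap (𝓞 K) (𝓞 L) c ∈ w.asIdeal ^ e → c ∈ v.asIdeal ^ e)
    (h3 : ∀ v ∉ Bad, ∀ p : ℕ, p.Prime → (p : 𝓞 K) ∈ v.asIdeal → ∀ (e : ℕ) (m : ℤ),
      (m : 𝓞 K) ∈ v.asIdeal ^ e → (p : ℤ) ^ e ∣ m)
    (h4 : ∀ v ∉ Bad, ∀ w : HeightOneSpectrum (𝓞 L), w.asIdeal.LiesOver v.asIdeal →
      ∀ c0 c1 : 𝓞 K,
      algebraMap (𝓞 K) (𝓞 L) c0 * β i0 + algebraMap (𝓞 K) (𝓞 L) c1 * β i1 ∈ w.asIdeal →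
      (Ideal.absNorm v.asIdeal < Ideal.absNorm w.asIdeal ∨
        ∃ w' : HeightOneSpectrum (𝓞 L), w'.asIdeal.LiesOver v.asIdeal ∧ w' ≠ w ∧
          algebraMap (𝓞 K) (𝓞 L) c0 * β i0 + algebraMap (𝓞 K) (𝓞 L) c1 * β i1 ∈ w'.asIdeal) →
      c0 ∈ v.asIdeal ∧ c1 ∈ v.asIdeal)
    {q B : ℕ} (hq : q ≠ 0) (hqB : q ≤ B) :
    {c ∈ Bx K m B | ∀ p ∈ q.primeFactors,
      ∃ I ∈ Tset (K := K) L Bad p (q.factorization p), evB K β c ∈ I}.ncard * q ≤
      (finrank ℚ K * (2 * finrank K L ^ 2) + finrank ℚ L) ^ q.primeFactors.card *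
        (Bx K m (B * (1 + 2 * sz (1 : 𝓞 K)))).ncard := by
  classical
  set τ := finrank ℚ K * (2 * finrank K L ^ 2) + finrank ℚ L with hτ
  set S : Set (Fin m → 𝓞 K) := {c ∈ Bx K m B | ∀ p ∈ q.primeFactors,
      ∃ I ∈ Tset (K := K) L Bad p (q.factorization p), evB K β c ∈ I} with hS
  have hSf : S.Finite := (Pool.Agent.N262.DR.Bx_finite m B).subset fun c hc => hc.1
  have hbf := Pool.Agent.N262.DR.Bx_finite (K := K) m (B * (1 + 2 * sz (1 : 𝓞 K)))
  have hd := Pool.Agent.N340.DR.dcount hSf.toFinset hbf.toFinset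
    (Finset.range q ×ˢ Finset.range q) (tr K i0 i1) (τ ^ q.primeFactors.card * q) ?_ ?_
  · rw [Set.ncard_eq_toFinset_card S hSf, Set.ncard_eq_toFinset_card _ hbf]
    rw [Finset.card_product, Finset.card_range] at hd
    have hq0 : 0 < q := Nat.pos_of_ne_zero hq
    refine Nat.le_of_mul_le_mul_right ?_ hq0
    calc hSf.toFinset.card * q * q = hSf.toFinset.card * (q * q) := by ring
      _ ≤ _ := hd
      _ = _ := by ring
  · intro c hc z hz
    rw [Set.Finite.mem_toFinset] at hc ⊢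
    rw [Finset.mem_product, Finset.mem_range, Finset.mem_range] at hz
    intro j
    rw [Pi.sub_apply]
    refine (Pool.Agent.N262.DR.sz_sub _ _).trans ?_
    have e1 := hc.1 j
    have e2 := sz_tr (K := K) i0 i1 (hz.1.le.trans hqB) (hz.2.le.trans hqB) j
    calc _ ≤ B + 2 * B * sz (1 : 𝓞 K) := Nat.add_le_add e1 e2
      _ = _ := by ring
  · intro Q _
    set Z : ℕ → ℕ × ℕ → Prop := fun p z => ∃ I ∈ Tset (K := K) L Bad p (q.factorization p),
      evB K β Q + ((z.1 : 𝓞 L) * β i0 + (z.2 : 𝓞 L) * β i1) ∈ I with hZ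
    have hsub : ((Finset.range q ×ˢ Finset.range q).filter fun z => Q + tr K i0 i1 z ∈
        hSf.toFinset) ⊆ ((Finset.range q ×ˢ Finset.range q).filter fun z =>
        ∀ p ∈ q.primeFactors, Z p z) := by
      intro z hz
      rw [Finset.mem_filter, Set.Finite.mem_toFinset] at hz
      rw [Finset.mem_filter]
      refine ⟨hz.1, fun p hp => ?_⟩
      obtain ⟨I, hI, hm⟩ := hz.2.2 p hp
      refine ⟨I, hI, ?_⟩
      rw [map_add, evB_tr] at hm
      exact hm
    refine (Finset.card_le_card hsub).trans ?_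
    refine (Pool.Agent.N340.DR.crt hq Z (fun p => τ * p ^ q.factorization p) ?_ ?_).trans ?_
    · intro p _ z hz
      obtain ⟨I, hI, hm⟩ := hz
      refine ⟨I, hI, ?_⟩
      have hpI := Tset_mem hI
      have hdiv : ∀ (a : ℕ), (a : 𝓞 L) = ((a % p ^ q.factorization p : ℕ) : 𝓞 L) +
          (p : 𝓞 L) ^ q.factorization p * ((a / p ^ q.factorization p : ℕ) : 𝓞 L) := by
        intro a
        conv_lhs => rw [← Nat.mod_add_div a (p ^ q.factorization p)]
        push_cast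
        ring
      have e1 : evB K β Q + ((((z.1 % p ^ q.factorization p : ℕ) : 𝓞 L)) * β i0 +
          (((z.2 % p ^ q.factorization p : ℕ) : 𝓞 L)) * β i1) =
          (evB K β Q + ((z.1 : 𝓞 L) * β i0 + (z.2 : 𝓞 L) * β i1)) -
          (p : 𝓞 L) ^ q.factorization p * (((z.1 / p ^ q.factorization p : ℕ) : 𝓞 L) * β i0 +
            ((z.2 / p ^ q.factorization p : ℕ) : 𝓞 L) * β i1) := by
        linear_combination -(β i0) * hdiv z.1 - (β i1) * hdiv z.2
      show evB K β Q + ((((z.1 % p ^ q.factorization p : ℕ) : 𝓞 L)) * β i0 +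
          (((z.2 % p ^ q.factorization p : ℕ) : 𝓞 L)) * β i1) ∈ I
      rw [e1]
      exact I.sub_mem hm (I.mul_mem_right _ hpI)
    · intro p hp
      have hpp := Nat.prime_of_mem_primeFactors hp
      obtain ⟨hTf, hTc⟩ := Tset_card (K := K) (L := L) Bad hpp (q.factorization p)
      have hsub2 : ((Finset.range (p ^ q.factorization p) ×ˢ
          Finset.range (p ^ q.factorization p)).filter (Z p)) ⊆
          hTf.toFinset.biUnion fun I => ((Finset.range (p ^ q.factorization p) ×ˢ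
            Finset.range (p ^ q.factorization p)).filter fun z : ℕ × ℕ =>
              evB K β Q + ((z.1 : 𝓞 L) * β i0 + (z.2 : 𝓞 L) * β i1) ∈ I) := by
        intro z hz
        rw [Finset.mem_filter] at hz
        obtain ⟨hz1, I, hI, hm⟩ := hz
        rw [Finset.mem_biUnion]
        refine ⟨I, ?_, ?_⟩
        · rw [Set.Finite.mem_toFinset]; exact hI
        · rw [Finset.mem_filter]; exact ⟨hz1, hm⟩
      refine (Finset.card_le_card hsub2).trans (Finset.card_biUnion_le.trans ?_)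
      refine (Finset.sum_le_card_nsmul _ _ (p ^ q.factorization p) ?_).trans ?_
      · intro I hI
        rw [Set.Finite.mem_toFinset] at hI
        exact one_ideal h1 h2 h3 h4 hpp _ hI _
      · rw [smul_eq_mul]
        refine Nat.mul_le_mul_right _ ?_
        rw [← Set.ncard_eq_toFinset_card _ hTf]
        exact hTc
    · rw [Finset.prod_mul_distrib, Finset.prod_const]
      refine Nat.mul_le_mul_left _ (le_of_eq ?_)
      exact Nat.prod_factorization_pow_eq_self hq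

end count

end Pool.Agent.L5helper17.DR
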