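import Mathlib
import Pool.Agent.L5helper17.DR.SmallB2

/-!
# CV/SMALLB: the part of small primes with double zeros is rarely large
-/

set_option autoImplicit false

namespace Pool.Agent.L5helper17.DR

open NumberField IsDedekindDomain Module Pool.Agent.N753.DR Pool.Agent.N147.DR

section

variable {K L : Type} [Field K] [NumberField K] [Field L] [NumberField L] [Algebra K L]

/-- the condition at the prime `p` with the exponent `b` -/
def Cnd (Bad : Finset (HeightOneSpectrum (𝓞 K))) {m : ℕ} (β : Fin m → 𝓞 L) (c : Fin m → 𝓞 K)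
    (p b : ℕ) : Prop :=
  ∃ I ∈ Tset (K := K) L Bad p b, evB K β c ∈ I

/-- the admissible moduli -/
def Adm (Bad : Finset (HeightOneSpectrum (𝓞 K))) {m : ℕ} (β : Fin m → 𝓞 L) (c : Fin m → 𝓞 K)
    (y : ℝ) (q : ℕ) : Prop :=
  q ≠ 0 ∧ ∀ p ∈ q.primeFactors, 2 ≤ q.factorization p ∧ (p : ℝ) ≤ y ∧
    Cnd Bad β c p (q.factorization p)

theorem Cnd_pred {Bad : Finset (HeightOneSpectrum (𝓞 K))} {m : ℕ} {β : Fin m → 𝓞 L}
    {c : Fin m → 𝓞 K} {p b : ℕ} (hb : 2 ≤ b) (h : Cnd Bad β c p (b + 1)) : Cnd Bad β c p b := by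
  obtain ⟨I, ⟨v, hv, hpv, ⟨hb2, _⟩ | ⟨w, hw, rfl⟩⟩, hI⟩ := h
  · omega
  · exact ⟨w.asIdeal ^ b, ⟨v, hv, hpv, Or.inr ⟨w, hw, rfl⟩⟩,
      Ideal.pow_le_pow_right (Nat.le_succ b) hI⟩

theorem Adm_step {Bad : Finset (HeightOneSpectrum (𝓞 K))} {m : ℕ} {β : Fin m → 𝓞 L}
    {c : Fin m → 𝓞 K} {y : ℝ} (hy : 1 ≤ y) (q : ℕ) (hq : Adm Bad β c y q) (h1 : q ≠ 1) :
    ∃ q' d, q = q' * d ∧ Adm Bad β c y q' ∧ 2 ≤ d ∧ (d : ℝ) ≤ y ^ 2 := by
  obtain ⟨hq0, hq⟩ := hq
  obtain ⟨p, hp⟩ : q.primeFactors.Nonempty := Nat.nonempty_primeFactors.2 (by omega)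
  have hpp := Nat.prime_of_mem_primeFactors hp
  obtain ⟨hf, hpy, hc⟩ := hq p hp
  have hd : p ^ 2 ∣ q := (hpp.pow_dvd_iff_le_factorization hq0).2 hf
  rcases hf.eq_or_lt with hf2 | hf3
  · -- exponent two
    obtain ⟨q', hq'⟩ := hd
    have hq'0 : q' ≠ 0 := by rintro rfl; rw [mul_zero] at hq'; exact hq0 hq'
    have hfac : q.factorization = (p ^ 2).factorization + q'.factorization := by
      rw [hq', Nat.factorization_mul (pow_ne_zero 2 hpp.ne_zero) hq'0]
    have hp2 : (p ^ 2).factorization = Finsupp.single p 2 := hpp.factorization_pow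
    have hpq' : q'.factorization p = 0 := by
      have := congrArg (fun f => f p) hfac
      simp only [hp2, Finsupp.add_apply, Finsupp.single_eq_same] at this
      omega
    refine ⟨q', p ^ 2, by rw [hq', mul_comm], ⟨hq'0, fun l hl => ?_⟩, ?_, ?_⟩
    · have hlp : l ≠ p := by
        rintro rfl
        have : q'.factorization l ≠ 0 := by
          rw [← Nat.support_factorization, Finsupp.mem_support_iff] at hl
          exact hl
        exact this hpq'
      have hfl : q.factorization l = q'.factorization l := by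
        rw [hfac, hp2, Finsupp.add_apply, Finsupp.single_eq_of_ne hlp, zero_add]
      have hl2 : l ∈ q.primeFactors := by
        rw [← Nat.support_factorization, Finsupp.mem_support_iff] at hl ⊢
        rw [hfl]; exact hl
      rw [← hfl]
      exact hq l hl2
    · have := hpp.two_le
      nlinarith
    · push_cast
      exact pow_le_pow_left₀ (by positivity) hpy 2
  · -- exponent at least three
    obtain ⟨q', hq'⟩ : p ∣ q := Nat.dvd_of_mem_primeFactors hp
    have hq'0 : q' ≠ 0 := by rintro rfl; rw [mul_zero] at hq'; exact hq0 hq'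
    have hfac : q.factorization = p.factorization + q'.factorization := by
      rw [hq', Nat.factorization_mul hpp.ne_zero hq'0]
    have hp1 : p.factorization = Finsupp.single p 1 := hpp.factorization
    have hpq' : q.factorization p = q'.factorization p + 1 := by
      rw [hfac, hp1, Finsupp.add_apply, Finsupp.single_eq_same, add_comm]
    refine ⟨q', p, by rw [hq', mul_comm], ⟨hq'0, fun l hl => ?_⟩, hpp.two_le, ?_⟩
    · by_cases hlp : l = p
      · subst hlp
        refine ⟨by omega, hpy, Cnd_pred (by omega) ?_⟩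
        rw [← hpq']
        exact hc
      · have hfl : q.factorization l = q'.factorization l := by
          rw [hfac, hp1, Finsupp.add_apply, Finsupp.single_eq_of_ne hlp, zero_add]
        have hl2 : l ∈ q.primeFactors := by
          rw [← Nat.support_factorization, Finsupp.mem_support_iff] at hl ⊢
          rw [hfl]; exact hl
        rw [← hfl]
        exact hq l hl2
    · nlinarith

/-- the large admissible modulus -/
theorem exists_Adm {Bad : Finset (HeightOneSpectrum (𝓞 K))} {m : ℕ} {β : Fin m → 𝓞 L}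
    {c : Fin m → 𝓞 K} {y : ℝ} (W : Finset (HeightOneSpectrum (𝓞 L)))
    (hW : ∀ w ∈ W, ∃ v ∉ Bad, w.asIdeal.LiesOver v.asIdeal ∧
        (Ideal.absNorm v.asIdeal : ℝ) ≤ y ∧ NSB β c v)
    (e : HeightOneSpectrum (𝓞 L) → ℕ) (he : ∀ w ∈ W, evB K β c ∈ w.asIdeal ^ e w) :
    ∃ q, Adm Bad β c y q ∧ ∑ w ∈ W, e w * lN w ≤ finrank ℚ L * Real.log q := by
  classical
  choose pr hpr1 hpr2 hpr3 using fun w : HeightOneSpectrum (𝓞 L) => exists_prime w
  set P : Finset ℕ := W.image pr with hP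
  set E : ℕ → ℕ := fun p => (W.filter fun w => pr w = p).sup e with hE
  set f : ℕ →₀ ℕ := Finsupp.onFinset P (fun p => if p ∈ P then max 2 (E p) else 0) (by
    intro p hp
    by_contra h
    exact hp (if_neg h)) with hf
  have hfP : ∀ p ∈ P, f p = max 2 (E p) := by
    intro p hp
    rw [hf, Finsupp.onFinset_apply, if_pos hp]
  have hPp : ∀ p ∈ P, p.Prime := by
    intro p hp
    rw [hP, Finset.mem_image] at hp
    obtain ⟨w, _, rfl⟩ := hp
    exact hpr1 w
  have hsupp : ∀ p, p ∈ f.support ↔ p ∈ P := by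
    intro p
    rw [Finsupp.mem_support_iff]
    constructor
    · intro h
      by_contra h2
      apply h
      rw [hf, Finsupp.onFinset_apply, if_neg h2]
    · intro h
      rw [hfP p h]
      have := le_max_left 2 (E p)
      omega
  set q : ℕ := f.prod (· ^ ·) with hqdef
  have hfac : q.factorization = f := Nat.prod_pow_factorization_eq_self fun p hp =>
    hPp p ((hsupp p).1 hp)
  have hprod : q = ∏ p ∈ P, p ^ f p := by
    rw [hqdef, Finsupp.prod]
    congr 1
    ext p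
    exact hsupp p
  have hq0 : q ≠ 0 := by
    rw [hprod]
    exact Finset.prod_ne_zero_iff.2 fun p hp => pow_ne_zero _ (hPp p hp).ne_zero
  refine ⟨q, ⟨hq0, ?_⟩, ?_⟩
  · intro p hp
    rw [← Nat.support_factorization, hfac, hsupp] at hp
    rw [hfac, hfP p hp]
    have hp' := hp
    rw [hP, Finset.mem_image] at hp'
    obtain ⟨w0, hw0, hw0p⟩ := hp'
    obtain ⟨v, hv, hlv, hvy, hns⟩ := hW w0 hw0
    have hpv : (p : 𝓞 K) ∈ v.asIdeal := by
      rw [← under_mem hlv, map_natCast, ← hw0p]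
      exact hpr2 w0
    refine ⟨le_max_left _ _, ?_, ?_⟩
    · refine le_trans ?_ hvy
      exact_mod_cast prime_le_norm (hPp p hp) hpv
    · by_cases hE2 : E p ≤ 2
      · rw [max_eq_left hE2]
        obtain ⟨I, hI, hcI⟩ := hns
        exact ⟨I, ⟨v, hv, hpv, Or.inl ⟨rfl, hI⟩⟩, hcI⟩
      · rw [not_le] at hE2
        rw [max_eq_right hE2.le]
        have hne : (W.filter fun w => pr w = p).Nonempty :=
          ⟨w0, Finset.mem_filter.2 ⟨hw0, hw0p⟩⟩
        obtain ⟨w1, hw1, hw1e⟩ := Finset.exists_mem_eq_sup _ hne e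
        rw [Finset.mem_filter] at hw1
        obtain ⟨v1, hv1, hlv1, _, _⟩ := hW w1 hw1.1
        have hpv1 : (p : 𝓞 K) ∈ v1.asIdeal := by
          rw [← under_mem hlv1, map_natCast, ← hw1.2]
          exact hpr2 w1
        have hEe : E p = e w1 := hw1e
        rw [hEe]
        exact ⟨w1.asIdeal ^ e w1, ⟨v1, hv1, hpv1, Or.inr ⟨w1, hlv1, rfl⟩⟩, he w1 hw1.1⟩
  · have hlogq : Real.log q = ∑ p ∈ P, (f p : ℝ) * Real.log p := by
      rw [hprod]
      push_cast
      rw [Real.log_prod (fun p hp => by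
        have := (hPp p hp).ne_zero
        positivity)]
      exact Finset.sum_congr rfl fun p _ => Real.log_pow _ _
    rw [hlogq, Finset.mul_sum]
    rw [← Finset.sum_fiberwise_of_maps_to (g := pr) (t := P)
      (fun w hw => by rw [hP]; exact Finset.mem_image_of_mem _ hw)]
    refine Finset.sum_le_sum fun p hp => ?_
    have hpp := hPp p hp
    have hlp : 0 ≤ Real.log p := Real.log_natCast_nonneg p
    have h1 : ∑ w ∈ W.filter (fun w => pr w = p), (e w : ℝ) * lN w ≤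
        ∑ w ∈ W.filter (fun w => pr w = p), (E p : ℝ) * lN w := by
      refine Finset.sum_le_sum fun w hw => ?_
      refine mul_le_mul_of_nonneg_right ?_ (Real.log_natCast_nonneg _)
      exact_mod_cast Finset.le_sup (f := e) hw
    have h2 : ∑ w ∈ W.filter (fun w => pr w = p), lN w ≤ finrank ℚ L * Real.log p := by
      have h3 := above_prod (F := L) hpp (W.filter fun w => pr w = p) (fun w hw => by
        rw [Finset.mem_filter] at hw
        rw [← hw.2]
        exact hpr2 w)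
      have h4 : ∑ w ∈ W.filter (fun w => pr w = p), lN w =
          Real.log ((∏ w ∈ W.filter (fun w => pr w = p), Ideal.absNorm w.asIdeal : ℕ) : ℝ) := by
        push_cast
        rw [Real.log_prod (fun w _ => by
          have := two_le_norm w
          positivity)]
        rfl
      rw [h4, ← Real.log_pow]
      refine Real.log_le_log ?_ (by exact_mod_cast h3)
      have : 0 < ∏ w ∈ W.filter (fun w => pr w = p), Ideal.absNorm w.asIdeal :=
        Finset.prod_pos fun w _ => by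
          have := two_le_norm w
          omega
      exact_mod_cast this
    calc _ ≤ ∑ w ∈ W.filter (fun w => pr w = p), (E p : ℝ) * lN w := h1
      _ = (E p : ℝ) * ∑ w ∈ W.filter (fun w => pr w = p), lN w := by rw [Finset.mul_sum]
      _ ≤ (E p : ℝ) * (finrank ℚ L * Real.log p) := by gcongr
      _ ≤ (f p : ℝ) * (finrank ℚ L * Real.log p) := by
          refine mul_le_mul_of_nonneg_right ?_ (by positivity)
          rw [hfP p hp]
          exact_mod_cast le_max_right _ _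
      _ = _ := by ring

end

/-- **CV/SMALLB** -/
theorem smallB : StmSmallB := by
  intro K L _ _ _ _ _ m β i0 i1 h0 hgen
  classical
  obtain ⟨Bad, hBad⟩ := Pool.Agent.N394.CV.typB K L m β i0 i1 h0 hgen
  refine ⟨Bad, fun κ hκ => ?_⟩
  set nL : ℝ := ((finrank ℚ L : ℕ) : ℝ) with hnL
  have hnL0 : 0 < nL := by
    rw [hnL]
    exact_mod_cast (Module.finrank_pos : 0 < finrank ℚ L)
  set μ : ℝ := min (κ / nL) (1 / 4) with hμ
  have hμ0 : 0 < μ := lt_min (div_pos hκ hnL0) (by norm_num)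
  have hμ1 : μ ≤ κ / nL := min_le_left _ _
  have hμ2 : μ ≤ 1 / 4 := min_le_right _ _
  set τ : ℕ := finrank ℚ K * (2 * finrank K L ^ 2) + finrank ℚ L with hτ
  have hτ1 : 1 ≤ τ := by
    have : 0 < finrank ℚ L := Module.finrank_pos
    omega
  obtain ⟨C1, hC1, hC1'⟩ := Pool.Agent.N340.DR.tau_bound hτ1
  obtain ⟨C2, hC2, hC2'⟩ := Pool.Agent.N340.DR.sum_bound
  set A : ℝ := (2 * (1 + 2 * sz (1 : 𝓞 K)) + 1 : ℝ) ^ (finrank ℚ K * m) with hA
  have hA0 : 0 < A := by positivity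
  refine ⟨1 / 4, μ / 8, C1 * C2 * A, by norm_num, by positivity, fun B hB => ?_⟩
  have hB0 : (0 : ℝ) < B := by exact_mod_cast hB
  have hB1 : (1 : ℝ) ≤ B := by exact_mod_cast hB
  set X : ℝ := (B : ℝ) ^ μ with hX
  set y : ℝ := (B : ℝ) ^ (1 / 4 : ℝ) with hy
  have hX1 : 1 ≤ X := Real.one_le_rpow hB1 hμ0.le
  have hX0 : 0 < X := by linarith
  have hy1 : 1 ≤ y := Real.one_le_rpow hB1 (by norm_num)
  have hXy : X * y ^ 2 ≤ B := by
    calc X * y ^ 2 ≤ (B : ℝ) ^ (1 / 4 : ℝ) * ((B : ℝ) ^ (1 / 4 : ℝ)) ^ 2 := by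
          refine mul_le_mul_of_nonneg_right ?_ (by positivity)
          exact Real.rpow_le_rpow_of_exponent_le hB1 hμ2
      _ = (B : ℝ) ^ (3 / 4 : ℝ) := by
          rw [← Real.rpow_natCast, ← Real.rpow_mul hB0.le, ← Real.rpow_add hB0]
          norm_num
      _ ≤ (B : ℝ) ^ (1 : ℝ) := Real.rpow_le_rpow_of_exponent_le hB1 (by norm_num)
      _ = B := Real.rpow_one _
  set big := Bx K m (B * (1 + 2 * sz (1 : 𝓞 K))) with hbig
  set N : ℕ × ℕ → Set (Fin m → 𝓞 K) := fun z => {c ∈ Bx K m B |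
    z.1 ^ 2 * z.2 ^ 3 ≤ B ∧ ∀ p ∈ (z.1 ^ 2 * z.2 ^ 3).primeFactors,
      ∃ I ∈ Tset (K := K) L Bad p ((z.1 ^ 2 * z.2 ^ 3).factorization p), evB K β c ∈ I} with hN
  set Z := (Finset.Icc 1 B ×ˢ Finset.Icc 1 B).filter
    (fun z : ℕ × ℕ => X ≤ ((z.1 ^ 2 * z.2 ^ 3 : ℕ) : ℝ)) with hZ
  have hBxf : (Bx K m B).Finite := Pool.Agent.N262.DR.Bx_finite m B
  have hcover : {c ∈ Bx K m B | ∃ W : Finset (HeightOneSpectrum (𝓞 L)),
      (∀ w ∈ W, ∃ v ∉ Bad, w.asIdeal.LiesOver v.asIdeal ∧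
        (Ideal.absNorm v.asIdeal : ℝ) ≤ (B : ℝ) ^ (1 / 4 : ℝ) ∧ NSB β c v) ∧
      ∃ e : HeightOneSpectrum (𝓞 L) → ℕ, (∀ w ∈ W, evB K β c ∈ w.asIdeal ^ e w) ∧
        κ * Real.log B ≤ ∑ w ∈ W, e w * lN w} ⊆ ⋃ z ∈ Z, N z := by
    rintro c ⟨hcB, W, hW, e, he, hκe⟩
    obtain ⟨Q, hQ, hQe⟩ := exists_Adm W hW e he
    have hQ0 : (0 : ℝ) < Q := by
      have := hQ.1
      positivity
    have hXQ : X ≤ Q := by
      rw [hX, Real.rpow_def_of_pos hB0, ← Real.exp_log hQ0]
      apply Real.exp_le_exp.2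
      have h1 : κ * Real.log B ≤ nL * Real.log Q := hκe.trans hQe
      have h2 : 0 ≤ Real.log B := Real.log_nonneg hB1
      have h3 : κ / nL * Real.log B ≤ Real.log Q := by
        rw [div_mul_eq_mul_div, div_le_iff₀ hnL0]
        linarith
      calc Real.log B * μ ≤ Real.log B * (κ / nL) := by gcongr
        _ = κ / nL * Real.log B := by ring
        _ ≤ _ := h3
    obtain ⟨q, hq, hXq, hqX⟩ := Pool.Agent.N340.DR.descend (Adm Bad β c y) hy1 hX1
      (fun q hq h1 => Adm_step hy1 q hq h1) (fun q hq => hq.1) Q hQ hXQ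
    obtain ⟨s, t, hst⟩ := Pool.Agent.N340.DR.pow_rep hq.1 (fun p hp => (hq.2 p hp).1)
    have hqB : q ≤ B := by exact_mod_cast hqX.trans hXy
    have hq0 := hq.1
    have hs0 : s ≠ 0 := by rintro rfl; apply hq0; rw [hst]; ring
    have ht0 : t ≠ 0 := by rintro rfl; apply hq0; rw [hst]; ring
    have hsq : s ≤ q := Nat.le_of_dvd (Nat.pos_of_ne_zero hq0) (by
      rw [hst]; exact Dvd.dvd.mul_right (dvd_pow_self s (by norm_num)) _)
    have htq : t ≤ q := Nat.le_of_dvd (Nat.pos_of_ne_zero hq0) (by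
      rw [hst]; exact Dvd.dvd.mul_left (dvd_pow_self t (by norm_num)) _)
    rw [Set.mem_iUnion₂]
    refine ⟨(s, t), ?_, hcB, ?_, ?_⟩
    · rw [hZ, Finset.mem_filter, Finset.mem_product, Finset.mem_Icc, Finset.mem_Icc]
      refine ⟨⟨⟨Nat.pos_of_ne_zero hs0, hsq.trans hqB⟩, Nat.pos_of_ne_zero ht0, htq.trans hqB⟩, ?_⟩
      simp only
      rw [← hst]
      exact hXq
    · simp only
      rw [← hst]
      exact hqB
    · simp only
      rw [← hst]
      exact fun p hp => (hq.2 p hp).2.2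
  have hNz : ∀ z ∈ Z, ((N z).ncard : ℝ) ≤
      C1 * (big.ncard : ℝ) * (((z.1 ^ 2 * z.2 ^ 3 : ℕ) : ℝ)) ^ (-(7 / 8) : ℝ) := by
    intro z hz
    rw [hZ, Finset.mem_filter, Finset.mem_product, Finset.mem_Icc, Finset.mem_Icc] at hz
    set q := z.1 ^ 2 * z.2 ^ 3 with hq
    have hq0 : q ≠ 0 := by
      have h1 : z.1 ≠ 0 := by omega
      have h2 : z.2 ≠ 0 := by omega
      rw [hq]
      exact mul_ne_zero (pow_ne_zero _ h1) (pow_ne_zero _ h2)
    have hqR : (0 : ℝ) < q := by positivity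
    by_cases hqB : q ≤ B
    · have h1 := fixed_q (K := K) (L := L) (Bad := Bad) (m := m) (β := β) (i0 := i0) (i1 := i1)
        (fun v hv => (hBad v hv).1) (fun v hv => (hBad v hv).2.1) (fun v hv => (hBad v hv).2.2.1)
        (fun v hv => (hBad v hv).2.2.2.1) hq0 hqB
      have h2 : (N z).ncard ≤ {c ∈ Bx K m B | ∀ p ∈ q.primeFactors,
          ∃ I ∈ Tset (K := K) L Bad p (q.factorization p), evB K β c ∈ I}.ncard := by
        refine Set.ncard_le_ncard ?_ (hBxf.subset fun c hc => hc.1)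
        rintro c ⟨hc1, _, hc2⟩
        exact ⟨hc1, hc2⟩
      have h3 : ((N z).ncard : ℝ) * q ≤ (τ : ℝ) ^ q.primeFactors.card * big.ncard := by
        calc ((N z).ncard : ℝ) * q ≤ ({c ∈ Bx K m B | ∀ p ∈ q.primeFactors,
              ∃ I ∈ Tset (K := K) L Bad p (q.factorization p), evB K β c ∈ I}.ncard : ℝ) * q := by
              gcongr
          _ ≤ _ := by exact_mod_cast h1
      have h4 := hC1' q hq0
      have h5 : ((N z).ncard : ℝ) * q ≤ C1 * (q : ℝ) ^ (1 / 8 : ℝ) * big.ncard :=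
        h3.trans (by gcongr)
      have h6 : (q : ℝ) ^ (-(7 / 8) : ℝ) * q = (q : ℝ) ^ (1 / 8 : ℝ) := by
        nth_rewrite 2 [← Real.rpow_one (q : ℝ)]
        rw [← Real.rpow_add hqR]
        norm_num
      have h7 : ((N z).ncard : ℝ) * q ≤ (C1 * (big.ncard : ℝ) * (q : ℝ) ^ (-(7 / 8) : ℝ)) * q := by
        rw [mul_assoc (C1 * (big.ncard : ℝ)), h6]
        linarith
      exact le_of_mul_le_mul_right h7 hqR
    · have h1 : N z = ∅ := by
        rw [Set.eq_empty_iff_forall_notMem]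
        rintro c ⟨_, hc, _⟩
        exact hqB hc
      rw [h1, Set.ncard_empty, Nat.cast_zero]
      positivity
  have hUf : (⋃ z ∈ Z, N z).Finite :=
    Set.Finite.biUnion (Finset.finite_toSet Z) fun z _ => hBxf.subset fun c hc => hc.1
  have hbigc : (big.ncard : ℝ) ≤ A * (B : ℝ) ^ ((finrank ℚ K : ℝ) * m) := by
    have h1 := Pool.Agent.N262.DR.Bx_card (K := K) m (B * (1 + 2 * sz (1 : 𝓞 K)))
    calc (big.ncard : ℝ) ≤ ((2 * (B * (1 + 2 * sz (1 : 𝓞 K))) + 1 : ℕ) : ℝ) ^ (finrank ℚ K * m) := by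
          exact_mod_cast h1
      _ ≤ ((2 * (1 + 2 * sz (1 : 𝓞 K)) + 1 : ℝ) * B) ^ (finrank ℚ K * m) := by
          refine pow_le_pow_left₀ (by positivity) ?_ _
          push_cast
          nlinarith
      _ = A * (B : ℝ) ^ ((finrank ℚ K : ℝ) * m) := by
          rw [mul_pow, hA, ← Real.rpow_natCast (B : ℝ)]
          push_cast
          rfl
  calc _ ≤ ((⋃ z ∈ Z, N z).ncard : ℝ) := by exact_mod_cast Set.ncard_le_ncard hcover hUf
    _ ≤ ∑ z ∈ Z, ((N z).ncard : ℝ) := by exact_mod_cast Pool.Agent.N530.DR.ncard_biUnion_le' Z N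
    _ ≤ ∑ z ∈ Z, C1 * (big.ncard : ℝ) * (((z.1 ^ 2 * z.2 ^ 3 : ℕ) : ℝ)) ^ (-(7 / 8) : ℝ) :=
        Finset.sum_le_sum hNz
    _ = C1 * (big.ncard : ℝ) * ∑ z ∈ Z, (((z.1 ^ 2 * z.2 ^ 3 : ℕ) : ℝ)) ^ (-(7 / 8) : ℝ) := by
        rw [Finset.mul_sum]
    _ ≤ C1 * (big.ncard : ℝ) * (C2 * X ^ (-(1 / 8) : ℝ)) :=
        mul_le_mul_of_nonneg_left (hC2' B X hX1) (by positivity)
    _ ≤ C1 * (A * (B : ℝ) ^ ((finrank ℚ K : ℝ) * m)) * (C2 * X ^ (-(1 / 8) : ℝ)) := by gcongr
    _ = C1 * C2 * A * (B : ℝ) ^ ((finrank ℚ K : ℝ) * m - μ / 8) := by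
        rw [hX, ← Real.rpow_mul hB0.le, sub_eq_add_neg, Real.rpow_add hB0]
        have : μ * (-(1 / 8)) = -(μ / 8) := by ring
        rw [this]
        ring

end Pool.Agent.L5helper17.DR
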