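import Mathlib
import Pool.Agent.L5helper17.DR.SmallB

/-!
# DR/SMALL from CV/SMALLB
-/

set_option autoImplicit false

namespace Pool.Agent.L5helper17.DR

open NumberField IsDedekindDomain Module Pool.Agent.N753.DR

/-- **DR/SMALL** -/
theorem small : StmSmall := by
  intro K L _ _ _ _ _ θ a r hθ ha hr
  have ha' : (a : L) ≠ 0 := by exact_mod_cast ha
  have h1r : 1 < r + 1 := by omega
  set β : Fin (r + 1) → 𝓞 L := fun i => (a : 𝓞 L) ^ (r - (i : ℕ)) * θ ^ (i : ℕ) with hβ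
  have h0 : β 0 ≠ 0 := by
    rw [hβ]
    simp only [Fin.val_zero, pow_zero, mul_one]
    exact pow_ne_zero _ (by exact_mod_cast ha)
  have e0 : (β 0 : L) = (a : L) ^ r := by
    rw [hβ]
    simp
  have e1 : (β ⟨1, h1r⟩ : L) = (a : L) ^ (r - 1) * (θ : L) := by
    rw [hβ]
    simp
  have hgen : IntermediateField.adjoin K {(β ⟨1, h1r⟩ : L) / β 0} = ⊤ := by
    have e2 : (β ⟨1, h1r⟩ : L) / β 0 = (θ : L) / a := by
      rw [e0, e1]
      obtain ⟨s, rfl⟩ : ∃ s, r = s + 1 := ⟨r - 1, by omega⟩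
      rw [Nat.add_sub_cancel, pow_succ]
      field_simp
    rw [e2, eq_top_iff, ← hθ, IntermediateField.adjoin_simple_le_iff]
    have e3 : (θ : L) = (θ : L) / a * a := by field_simp
    have e4 := mul_mem (IntermediateField.mem_adjoin_simple_self K ((θ : L) / a))
      (natCast_mem (IntermediateField.adjoin K {(θ : L) / a}) a)
    rwa [← e3] at e4
  obtain ⟨Bad, hBad⟩ := smallB K L (r + 1) β 0 ⟨1, h1r⟩ h0 hgen
  refine ⟨Bad, fun κ hκ => ?_⟩
  obtain ⟨δ, ν, C, hδ, hν, h⟩ := hBad κ hκ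
  refine ⟨δ, ν, C, hδ, hν, fun B hB => ?_⟩
  have h2 := h B hB
  rw [Nat.cast_add, Nat.cast_one] at h2
  exact h2

end Pool.Agent.L5helper17.DR
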