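import Mathlib
import Pool.Agent.L5helper17.DR.Small
import Pool.Agent.N707.DR.VkG
import Pool.Agent.N415.DR.VK
import Pool.Agent.N572.DR.KE
import Pool.Agent.N572.DR.Diag
import Pool.Agent.N262.DR.Deg
import Pool.Agent.N97.DR.Core
import Pool.Agent.N262.DR.Places
import Pool.Agent.N459.DR.Red
import Pool.Agent.N572.DR.Link
import Pool.Agent.N147.DR.Lat
import Pool.Agent.N147.DR.Typ

/-!
# The theorem on the points of degree `r` (project DR)
-/

set_option autoImplicit false

namespace Pool.Agent.L5helper17.DR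

open Pool.Agent.N753.DR

theorem large : StmLarge := Pool.Agent.N530.DR.t Pool.Agent.N147.DR.t
  Pool.Agent.N147.DR.typ

theorem core : StmCore := Pool.Agent.N97.DR.Core.t Pool.Agent.N147.DR.typ large small
  Pool.Agent.N262.DR.places

theorem deg : StmDeg := Pool.Agent.N262.DR.deg core Pool.Agent.N459.DR.t
  Pool.Agent.N572.DR.Link.t

theorem ke : StmKE := Pool.Agent.N572.DR.KE.t Pool.Agent.N572.DR.Diag.t deg

theorem vk : StmVk := Pool.Agent.N415.DRVK.t ke

theorem vkG : StmVkG := Pool.Agent.N707.DRVkG.t vk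

end Pool.Agent.L5helper17.DR
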