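import Mathlib
import Pool.Agent.L5helper17.DR.Vkg
import Pool.Agent.L5helper17.DR.Cnt
import Pool.Agent.N31.FR.Tot

/-!
# Points of degree `r` of the projective line: homogeneous coordinates, local heights
-/

set_option autoImplicit false

namespace Pool.Agent.L5helper17.DR

open NumberField IsDedekindDomain Module Polynomial Pool.Agent.N753.DR Height
open Pool.Agent.H691R3 Pool.Agent.TH876.Loc
open Pool.Agent.TH876.KR (form localHeight localHeight_nonneg localHeight_eq localHeight_pos_iff m2
  form_le)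
open Pool.Agent.L5helper17.Cnt

section

variable {k : Type} [Field k] [NumberField k]

/-- a natural number outside a finite set of bad values -/
theorem exists_n {q : ℕ} (a : Fin q → Fin 2 → k) (ha : ∀ i, a i ≠ 0) :
    ∃ n : ℕ, ∀ j, a j 0 - (n : k) * a j 1 ≠ 0 := by
  have hfin : {c : ℕ | ∃ j, a j 0 - (c : k) * a j 1 = 0}.Finite := by
    have h1 : {c : ℕ | ∃ j, a j 0 - (c : k) * a j 1 = 0} =
        ⋃ j, {c : ℕ | a j 0 - (c : k) * a j 1 = 0} := by
      ext c
      simp
    rw [h1]
    refine Set.finite_iUnion fun j => Set.Subsingleton.finite ?_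
    intro c hc d hd
    have hc' : a j 0 - (c : k) * a j 1 = 0 := hc
    have hd' : a j 0 - (d : k) * a j 1 = 0 := hd
    have h2 : ((c : k) - (d : k)) * a j 1 = 0 := by
      linear_combination hd' - hc'
    rcases mul_eq_zero.1 h2 with h3 | h3
    · exact Nat.cast_injective (sub_eq_zero.1 h3)
    · exfalso
      apply ha j
      have h4 : a j 0 = 0 := by
        rw [h3, mul_zero, sub_zero] at hc'
        exact hc'
      funext i
      fin_cases i
      · exact h4
      · exact h3
  obtain ⟨c, hc⟩ := hfin.exists_notMem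
  exact ⟨c, fun j hj => hc ⟨j, hj⟩⟩

/-- the degree of the image under the transformation -/
theorem deg_tr {K : Type} [Field K] [NumberField K] [Algebra K k] {a0 a1 : k} (c : ℕ)
    (h : a0 - (c : k) * a1 ≠ 0) {n : ℕ} (hn : 1 ≤ n)
    (hd : (minpoly K (a0 / a1)).natDegree ≤ n) :
    (minpoly K (a1 / (a0 - (c : k) * a1))).natDegree ≤ n := by
  have hfd : FiniteDimensional K k := Module.Finite.of_restrictScalars_finite ℚ K k
  by_cases h1 : a1 = 0
  · rw [h1, zero_div, minpoly.zero, natDegree_X]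
    exact hn
  have hint : ∀ z : k, IsIntegral K z := fun z => Algebra.IsIntegral.isIntegral z
  have e : a1 / (a0 - (c : k) * a1) = (a0 / a1 - (c : k))⁻¹ := by
    have h2 : a0 / a1 - (c : k) = (a0 - (c : k) * a1) / a1 := by
      field_simp
    rw [h2, inv_div]
  rw [e]
  rw [← IntermediateField.adjoin.finrank (hint _)] at hd ⊢
  refine le_trans ?_ hd
  have hle : IntermediateField.adjoin K {(a0 / a1 - (c : k))⁻¹} ≤
      IntermediateField.adjoin K {a0 / a1} := by
    rw [IntermediateField.adjoin_simple_le_iff]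
    refine inv_mem (sub_mem (IntermediateField.mem_adjoin_simple_self K _) ?_)
    exact natCast_mem _ c
  exact Submodule.finrank_mono (s := (IntermediateField.adjoin K
    {(a0 / a1 - (c : k))⁻¹}).toSubalgebra.toSubmodule)
    (t := (IntermediateField.adjoin K {a0 / a1}).toSubalgebra.toSubmodule) hle

end

section

variable {M : Type} [Field M] [NumberField M]

theorem fv_lt_one (v : HeightOneSpectrum (𝓞 M)) (x : M) : fv v x < 1 ↔ v.valuation M x < 1 := by
  have h1 : fv v x = ((WithZeroMulInt.toNNReal (NumberField.HeightOneSpectrum.absNorm_ne_zero v)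
      (v.valuation M x) : NNReal) : ℝ) :=
    NumberField.FinitePlace.norm_embedding' (v := v) (x := x)
  rw [h1, NNReal.coe_lt_one]
  exact WithZeroMulInt.toNNReal_lt_one_iff
    (NumberField.HeightOneSpectrum.one_lt_absNorm_nnreal v)

/-- the local height in the other coordinate -/
theorem pos_of_near {w : HeightOneSpectrum (𝓞 M)} {a X : Fin 2 → M} (n : ℕ)
    (ha : a 0 - (n : M) * a 1 ≠ 0) (hX : X 0 - (n : M) * X 1 ≠ 0) (hf : form a X ≠ 0)
    (h : w.valuation M (X 1 / (X 0 - (n : M) * X 1) - a 1 / (a 0 - (n : M) * a 1)) < 1) :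
    0 < localHeight w a X := by
  have hdiff : X 1 / (X 0 - (n : M) * X 1) - a 1 / (a 0 - (n : M) * a 1) = form a X /
      ((a 0 - (n : M) * a 1) * (X 0 - (n : M) * X 1)) := by
    rw [div_sub_div _ _ hX ha, div_eq_div_iff (mul_ne_zero hX ha) (mul_ne_zero ha hX)]
    show _ = (a 0 * X 1 - a 1 * X 0) * _
    ring
  rw [localHeight_pos_iff w hf]
  rw [← fv_lt_one, hdiff, map_div₀, div_lt_one ((fv w).pos (mul_ne_zero ha hX)), map_mul] at h
  refine h.trans_le ?_
  have hle : ∀ z : Fin 2 → M, fv w (z 0 - (n : M) * z 1) ≤ m2 w z := by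
    intro z
    have h5 : fv w (z 0 - (n : M) * z 1) ≤ max (fv w (z 0)) (fv w (-((n : M) * z 1))) := by
      rw [sub_eq_add_neg]
      exact fv_na w _ _
    rw [(fv w).map_neg, map_mul] at h5
    refine h5.trans (max_le_max le_rfl ?_)
    have := (fv w).nonneg (z 1)
    have := fv_natCast_le w n
    nlinarith
  exact mul_le_mul (hle _) (hle _) ((fv w).nonneg _) (((fv w).nonneg _).trans (hle _))

/-- the counting function is at least the sum over the primes with a positive local height -/
theorem cnt_ge (S : Set (Pr M)) {q : ℕ} (hq : 0 < q) {a : Fin q → Fin 2 → M} {X : Fin 2 → M}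
    (hf : ∀ i, form (a i) X ≠ 0) :
    ∃ W : Finset (Pr M), (∀ w ∉ S, (∃ i, 0 < localHeight w (a i) X) → w ∈ W) ∧
      ∑ w ∈ W, lN w ≤ cnt S a X := by
  classical
  obtain ⟨V, hV⟩ := exists_V hf (ne_of_form (hf ⟨0, hq⟩)).2
  refine ⟨V.filter fun w => w ∉ S ∧ ∃ i, 0 < localHeight w (a i) X, ?_, ?_⟩
  · rintro w hw ⟨i, hi⟩
    rw [Finset.mem_filter]
    refine ⟨?_, hw, i, hi⟩
    by_contra hcon
    rw [hV w hcon i] at hi
    exact lt_irrefl _ hi
  · rw [cnt_eq_V S V hV, Finset.sum_filter]
    refine Finset.sum_le_sum fun w _ => ?_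
    by_cases hw : w ∉ S
    · rw [if_pos hw]
      split_ifs with h
      · obtain ⟨_, i, hi⟩ := h
        have h1 : lN w ≤ min (localHeight w (a i) X) (Real.log (Nv w)) :=
          le_min (log_Nv_le_localHeight w (hf i) hi) le_rfl
        exact h1.trans (Finset.single_le_sum (f := fun i => min (localHeight w (a i) X)
          (Real.log (Nv w))) (fun j _ => term_nonneg w (hf j)) (Finset.mem_univ i))
      · exact Finset.sum_nonneg fun i _ => term_nonneg w (hf i)
    · rw [if_neg hw, if_neg (fun h => hw h.1)]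

theorem cnt_nonneg (S : Set (Pr M)) {q : ℕ} (hq : 0 < q) {a : Fin q → Fin 2 → M} {X : Fin 2 → M}
    (hf : ∀ i, form (a i) X ≠ 0) : 0 ≤ cnt S a X := by
  obtain ⟨W, _, h⟩ := cnt_ge S hq hf
  refine le_trans (Finset.sum_nonneg fun w _ => ?_) h
  exact Real.log_natCast_nonneg _

end

/-! ### The theorem with the counting function which is not normalised -/

/-- the primes of `M` above the primes in `S` -/
def up {k : Type} [Field k] [NumberField k] (M : Type) [Field M] [NumberField M] [Algebra k M]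
    (S : Set (HeightOneSpectrum (𝓞 k))) : Set (HeightOneSpectrum (𝓞 M)) :=
  {w | ∃ v ∈ S, w.asIdeal.LiesOver v.asIdeal}

/-- the points over the larger field -/
def ex {k : Type} [Field k] (M : Type) [Field M] [Algebra k M] {q : ℕ} (α : Fin q → Fin 2 → k) :
    Fin q → Fin 2 → M := fun l j => algebraMap k M (α l j)

theorem lower (K : Type) [Field K] [NumberField K] (r : ℕ) (hr : 1 ≤ r) : ∃ E : Set K[X],
    (∀ U : ℝ, 0 ≤ U → {p | p ∈ E ∧ AtH r U p}.Finite ∧
      ({p | p ∈ E ∧ AtH r U p}.ncard : ℝ) ≤ 2 * Real.exp ((r + 1) * U - √U)) ∧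
    ∀ (k : Type) [Field k] [NumberField k] [Algebra K k] (S : Set (HeightOneSpectrum (𝓞 k)))
      (q : ℕ) (α : Fin q → Fin 2 → k), S.Finite → 0 < q → (∀ i, α i ≠ 0) →
      (∀ i j, i ≠ j → form (α i) (α j) ≠ 0) →
      (∀ j, (minpoly K (α j 0 / α j 1)).natDegree ≤ 2 * r + 1) → ∀ ε : ℝ, 0 < ε →
      ∃ C : ℝ, 0 ≤ C ∧ ∀ (M : Type) [Field M] [NumberField M] [Algebra K M] [Algebra k M]
        [IsScalarTower K k M] (x : M), IntermediateField.adjoin k {x} = ⊤ →
        (minpoly K x).natDegree = r → minpoly K x ∉ E →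
        (∀ j, form (ex M α j) ![x, 1] ≠ 0) →
        (q - ε) * logHeight₁ x ≤ cnt (up M S) (ex M α) ![x, 1] + finrank k M * C := by
  classical
  obtain ⟨E, hE, hmain⟩ := vkG K r hr
  refine ⟨E, hE, ?_⟩
  intro k _ _ _ S q α hS hq hα0 hα hdeg ε hε
  obtain ⟨n, hn⟩ := exists_n α hα0
  obtain ⟨a, ha⟩ : ∃ a : Fin q → k, a = fun j => α j 1 / (α j 0 - (n : k) * α j 1) := ⟨_, rfl⟩
  have haj : ∀ j, a j = α j 1 / (α j 0 - (n : k) * α j 1) := fun j => by rw [ha]
  have hainj : Function.Injective a := by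
    intro i j hij
    by_contra hne
    apply hα i j hne
    rw [haj, haj, div_eq_div_iff (hn i) (hn j)] at hij
    show α i 0 * α j 1 - α i 1 * α j 0 = 0
    linear_combination -hij
  have hadeg : ∀ j, (minpoly K (a j)).natDegree ≤ 2 * r + 1 := by
    intro j
    rw [haj]
    exact deg_tr n (hn j) (by omega) (hdeg j)
  obtain ⟨S', hS'⟩ : ∃ S' : Finset ℕ, S' = hS.toFinset.image fun v => Ideal.absNorm v.asIdeal :=
    ⟨_, rfl⟩
  obtain ⟨C, hC⟩ := hmain k q a hainj hadeg (n : K) 1 1 0 (by simp) S' ε hε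
  obtain ⟨C1, hC1, hC1'⟩ := Pool.Agent.N707.DRVkG.ht_mob (k := k) (A := 0) (B := 1) (G := 1)
    (D := -(n : k)) (by simp)
  obtain ⟨C2, hC2, hC2'⟩ := Pool.Agent.N707.DRVkG.ht_lin (k := k) 0 (n : k)
  refine ⟨|C| + |q - ε| * (C1 + C2), by positivity, ?_⟩
  intro M _ _ _ _ _ x hx hxr hxE hxf
  have hfr1 : (1 : ℝ) ≤ finrank k M := by
    have hfd : FiniteDimensional k M := Module.Finite.of_restrictScalars_finite ℚ k M
    exact_mod_cast (Module.finrank_pos : 0 < finrank k M)
  have hcn : 0 ≤ cnt (up M S) (ex M α) ![x, 1] := cnt_nonneg _ hq hxf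
  have hhx : 0 ≤ logHeight₁ x := zero_le_logHeight₁ x
  have habs : (q : ℝ) - ε ≤ |q - ε| := le_abs_self _
  by_cases hxn : x = (n : M)
  · -- the point which becomes infinite
    have h1 := hC2' M (0 : M)
    rw [map_zero, zero_mul, zero_add, map_natCast, logHeight₁_zero, zero_add] at h1
    rw [hxn] at hcn ⊢
    have h2 : (q - ε) * logHeight₁ (n : M) ≤ |q - ε| * (finrank k M * C2) :=
      (mul_le_mul_of_nonneg_right habs (zero_le_logHeight₁ _)).trans
        (mul_le_mul_of_nonneg_left h1 (abs_nonneg _))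
    have h3 : 0 ≤ (finrank k M : ℝ) * |C| := by positivity
    have h4 : 0 ≤ (finrank k M : ℝ) * (|q - ε| * C1) := by positivity
    nlinarith
  have hxn' : x - (n : M) ≠ 0 := sub_ne_zero.2 hxn
  obtain ⟨t, ht⟩ : ∃ t : M, t = 1 / (x - (n : M)) := ⟨_, rfl⟩
  have ht0 : t ≠ 0 := by rw [ht]; exact one_div_ne_zero hxn'
  have htx : t * (x - (n : M)) = 1 := by rw [ht]; field_simp
  have hadj : IntermediateField.adjoin k {t} = ⊤ := by
    rw [eq_top_iff, ← hx, IntermediateField.adjoin_simple_le_iff]
    have e : x = t⁻¹ + (n : M) := by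
      rw [ht]; field_simp; ring
    rw [e]
    exact add_mem (inv_mem (IntermediateField.mem_adjoin_simple_self k t)) (natCast_mem _ n)
  obtain ⟨W, hW, hWc⟩ := cnt_ge (up M S) hq hxf
  have h1 := hC M t x hadj (by
    rw [map_one, one_mul, map_zero, add_zero, map_natCast]
    linear_combination htx) (by
    rw [map_one, one_mul, map_zero, add_zero]; exact ht0) hxr hxE (by
    intro j hj
    apply hxf j
    rw [haj, map_div₀, ht, map_sub, map_mul, map_natCast] at hj
    have hnj : algebraMap k M (α j 0) - (n : M) * algebraMap k M (α j 1) ≠ 0 := by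
      rw [← map_natCast (algebraMap k M), ← map_mul, ← map_sub]
      rw [Ne, FaithfulSMul.algebraMap_eq_zero_iff]
      exact hn j
    rw [div_eq_div_iff hxn' hnj] at hj
    show algebraMap k M (α j 0) * 1 - algebraMap k M (α j 1) * x = 0
    linear_combination hj) W (by
    rintro w hw1 - ⟨j, hw2⟩
    apply hW w
    · rintro ⟨v, hv, hwv⟩
      apply hw1 (Ideal.absNorm v.asIdeal)
      · rw [hS', Finset.mem_image]
        exact ⟨v, by rw [Set.Finite.mem_toFinset]; exact hv, rfl⟩
      · have := Pool.Agent.N147.DR.two_le_norm v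
        omega
      · have h2 := (Pool.Agent.N147.DR.under_mem hwv ((Ideal.absNorm v.asIdeal : ℕ) : 𝓞 k)).2
          (Ideal.absNorm_mem v.asIdeal)
        rwa [map_natCast] at h2
    · refine ⟨j, pos_of_near n ?_ ?_ (hxf j) ?_⟩
      · show algebraMap k M (α j 0) - (n : M) * algebraMap k M (α j 1) ≠ 0
        rw [← map_natCast (algebraMap k M), ← map_mul, ← map_sub]
        rw [Ne, FaithfulSMul.algebraMap_eq_zero_iff]
        exact hn j
      · show x - (n : M) * 1 ≠ 0
        rw [mul_one]
        exact hxn'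
      · show w.valuation M (1 / (x - (n : M) * 1) - algebraMap k M (α j 1) /
          (algebraMap k M (α j 0) - (n : M) * algebraMap k M (α j 1))) < 1
        rw [mul_one, ← ht, ← map_natCast (algebraMap k M), ← map_mul, ← map_sub, ← map_div₀,
          ← haj]
        exact hw2)
  have h2 : logHeight₁ x ≤ logHeight₁ t + finrank k M * C1 := by
    refine hC1' M x t ?_ ?_
    · rw [map_one, one_mul, map_neg, map_natCast, map_zero, zero_mul, zero_add]
      linear_combination htx
    · rw [map_one, one_mul, map_neg, map_natCast, ← sub_eq_add_neg]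
      exact hxn'
  have hht : 0 ≤ logHeight₁ t := zero_le_logHeight₁ t
  have h3 : (q - ε) * logHeight₁ x ≤ cnt (up M S) (ex M α) ![x, 1] + |C| +
      |q - ε| * (finrank k M * C1) := by
    rcases le_or_gt 0 ((q : ℝ) - ε) with hpos | hneg
    · calc (q - ε) * logHeight₁ x ≤ (q - ε) * (logHeight₁ t + finrank k M * C1) :=
            mul_le_mul_of_nonneg_left h2 hpos
        _ = (q - ε) * logHeight₁ t + (q - ε) * (finrank k M * C1) := by ring
        _ ≤ (cnt (up M S) (ex M α) ![x, 1] + |C|) + |q - ε| * (finrank k M * C1) := by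
            refine add_le_add ?_ (mul_le_mul_of_nonneg_right habs (by positivity))
            linarith [le_abs_self C]
    · have h4 : (q - ε) * logHeight₁ x ≤ 0 := mul_nonpos_of_nonpos_of_nonneg hneg.le hhx
      have h5 : 0 ≤ |(q : ℝ) - ε| * (finrank k M * C1) := by positivity
      have h6 := abs_nonneg C
      linarith
  have h4 : |C| ≤ finrank k M * |C| := le_mul_of_one_le_left (abs_nonneg _) hfr1
  have h5 : 0 ≤ (finrank k M : ℝ) * (|q - ε| * C2) := by positivity
  calc (q - ε) * logHeight₁ x ≤ _ := h3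
    _ ≤ cnt (up M S) (ex M α) ![x, 1] + finrank k M * |C| +
        |q - ε| * (finrank k M * C1) + (finrank k M : ℝ) * (|q - ε| * C2) := by linarith
    _ = _ := by ring

theorem height_pair {M : Type} [Field M] [NumberField M] {x : Fin 2 → M} (h1 : x 1 ≠ 0) :
    logHeight x = logHeight₁ (x 0 / x 1) := by
  have e : x = x 1 • ![x 0 / x 1, 1] := by
    funext i
    fin_cases i
    · show x 0 = x 1 * (x 0 / x 1)
      field_simp
    · show x 1 = x 1 * 1
      ring
  conv_lhs => rw [e]
  rw [logHeight_smul_eq_logHeight _ h1, logHeight₁_eq_logHeight]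

theorem height_inf {M : Type} [Field M] [NumberField M] {x : Fin 2 → M} (h1 : x 1 = 0) :
    logHeight x = 0 := by
  by_cases h0 : x 0 = 0
  · have e : x = 0 := by
      funext i
      fin_cases i
      · exact h0
      · exact h1
    rw [e, logHeight_zero]
  · have e1 : x = x 0 • (![1, 0] : Fin 2 → M) := by
      funext i
      fin_cases i
      · show x 0 = x 0 * 1
        ring
      · show x 1 = x 0 * 0
        rw [h1, mul_zero]
    rw [e1, logHeight_smul_eq_logHeight _ h0]
    have := logHeight₁_eq_logHeight (0 : M)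
    rw [logHeight₁_zero] at this
    rw [← logHeight_comp_equiv (Equiv.swap (0 : Fin 2) 1) (![1, 0] : Fin 2 → M)]
    have e4 : (![1, 0] : Fin 2 → M) ∘ ⇑(Equiv.swap (0 : Fin 2) 1) = ![0, 1] := by
      funext i
      fin_cases i <;> rfl
    rw [e4]
    exact this.symm

/-- the upper bound, uniformly in the field -/
theorem upper (k : Type) [Field k] [NumberField k] (S : Set (HeightOneSpectrum (𝓞 k)))
    (q : ℕ) (hq : 0 < q) (α : Fin q → Fin 2 → k) : ∃ C : ℝ, 0 ≤ C ∧ ∀ (M : Type) [Field M]
      [NumberField M] [Algebra k M] (x : M), (∀ j, form (ex M α j) ![x, 1] ≠ 0) →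
        cnt (up M S) (ex M α) ![x, 1] ≤ q * logHeight₁ x + finrank ℚ M * C := by
  classical
  have h1 : ∀ j : Fin q, ∃ C : ℝ, 0 ≤ C ∧ ∀ (M : Type) [Field M] [NumberField M] [Algebra k M],
      logHeight (ex M α j) ≤ finrank k M * C := by
    intro j
    by_cases h0 : α j 1 = 0
    · refine ⟨0, le_rfl, fun M _ _ _ => ?_⟩
      have : ex M α j 1 = 0 := by
        show algebraMap k M (α j 1) = 0
        rw [h0, map_zero]
      rw [height_inf this, mul_zero]
    · obtain ⟨C, hC, h⟩ := Pool.Agent.N707.DRVkG.ht_lin (k := k) 0 (α j 0 / α j 1)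
      refine ⟨C, hC, fun M _ _ _ => ?_⟩
      have h2 := h M (0 : M)
      rw [map_zero, zero_mul, zero_add, logHeight₁_zero, zero_add, map_div₀] at h2
      have h3 : ex M α j 1 ≠ 0 := by
        show algebraMap k M (α j 1) ≠ 0
        rw [Ne, FaithfulSMul.algebraMap_eq_zero_iff]
        exact h0
      rw [height_pair h3]
      exact h2
  choose C hC hC' using h1
  refine ⟨∑ j, (C j + Real.log 2), Finset.sum_nonneg fun j _ =>
    add_nonneg (hC j) (Real.log_nonneg (by norm_num)), ?_⟩
  intro M _ _ _ x hf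
  have hx0 : (![x, 1] : Fin 2 → M) ≠ 0 := (ne_of_form (hf ⟨0, hq⟩)).2
  have hfin : (finrank k M : ℝ) ≤ finrank ℚ M := by
    have hfd : FiniteDimensional k M := Module.Finite.of_restrictScalars_finite ℚ k M
    have h1 : finrank k M ≤ finrank ℚ M := by
      rw [← Module.finrank_mul_finrank ℚ k M]
      exact Nat.le_mul_of_pos_left _ Module.finrank_pos
    exact_mod_cast h1
  rw [cnt_eq_sum _ hf hx0]
  have h2 : ∀ j, cnt1 (up M S) (ex M α j) ![x, 1] ≤
      logHeight₁ x + finrank ℚ M * (C j + Real.log 2) := by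
    intro j
    have h3 := cnt1_le (up M S) (hf j)
    have h4 := hC' j M
    have h5 : (finrank k M : ℝ) * C j ≤ finrank ℚ M * C j :=
      mul_le_mul_of_nonneg_right hfin (hC j)
    rw [logHeight₁_eq_logHeight x]
    nlinarith
  calc ∑ j, cnt1 (up M S) (ex M α j) ![x, 1] ≤
        ∑ j, (logHeight₁ x + finrank ℚ M * (C j + Real.log 2)) := Finset.sum_le_sum fun j _ => h2 j
    _ = _ := by
        rw [Finset.sum_add_distrib, Finset.sum_const, Finset.card_univ, Fintype.card_fin,
          nsmul_eq_mul, Finset.mul_sum]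

end Pool.Agent.L5helper17.DR
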